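import Mathlib

set_option autoImplicit false

namespace Pool.Agent.Results.MP_9bf48e_al.NotClosed

open Matrix

/-- The elementary net subgroup `E(σ)` of `GL(n,K)`: it is generated by the transvections
`t_ij(a)`, `i ≠ j`, `a ∈ σ i j`. -/
def netGroup {R K : Type} [CommRing R] [Field K] [Algebra R K] {n : ℕ}
    (σ : Fin n → Fin n → Submodule R K) : Subgroup (GL (Fin n) K) :=
  Subgroup.closure {g | ∃ i j : Fin n, i ≠ j ∧ ∃ a ∈ σ i j,
    (g : Matrix (Fin n) (Fin n) K) = Matrix.transvection i j a}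

section aux

variable {K : Type} [Field K]

/-- The ℤ-module of all `a + b θ` with `(a, b)` satisfying congruences mod 2. -/
def lat (θ : K) (s t : ℤ) : Submodule ℤ K where
  carrier := {x | ∃ a b : ℤ, x = (s * a : ℤ) + (t * b : ℤ) * θ}
  add_mem' := by
    rintro _ _ ⟨a, b, rfl⟩ ⟨c, d, rfl⟩
    exact ⟨a + c, b + d, by push_cast; ring⟩
  zero_mem' := ⟨0, 0, by simp⟩
  smul_mem' := by
    rintro c _ ⟨a, b, rfl⟩
    exact ⟨c * a, c * b, by rw [zsmul_eq_mul]; push_cast; ring⟩

def tv {n : ℕ} {i j : Fin n} (h : i ≠ j) (a : K) : GL (Fin n) K where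
  val := Matrix.transvection i j a
  inv := Matrix.transvection i j (-a)
  val_inv := by rw [Matrix.transvection_mul_transvection_same _ _ h]; simp
  inv_val := by rw [Matrix.transvection_mul_transvection_same _ _ h]; simp

lemma ring_id {A : Type} [Ring A] [Algebra K A] (x y : A) (a : K) (hx : x * x = 0) (hy : y * y = 0)
    (h1 : x * y * x = x) (h2 : y * x * y = y) :
    (1 + x) * (1 - y) * (1 + x) * (1 + a • x) = (1 - a • y) * ((1 + x) * (1 - y) * (1 + x)) := by
  have e : (1 + x) * (1 - y) * (1 + x) = 1 + x - y - x * y - y * x := by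
    have : (1 + x) * (1 - y) * (1 + x) = 1 + x + x - y - x * y - y * x + x * x - x * y * x := by
      noncomm_ring
    rw [this, hx, h1]; abel
  rw [e]
  have e1 : (1 + x - y - x * y - y * x) * x = -(y * x) := by
    have : (1 + x - y - x * y - y * x) * x = x + x * x - y * x - x * y * x - y * (x * x) := by
      noncomm_ring
    rw [this, hx, h1]; simp
  have e2 : y * (1 + x - y - x * y - y * x) = y * x := by
    have : y * (1 + x - y - x * y - y * x) = y + y * x - y * y - y * x * y - (y * y) * x := by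
      noncomm_ring
    rw [this, hy, h2]; simp
  rw [mul_add, sub_mul (1 : A), mul_one, one_mul, mul_smul_comm, smul_mul_assoc, e1, e2, smul_neg,
    sub_eq_add_neg _ (a • _)]

lemma conj {n : ℕ} {i j : Fin n} (h : i ≠ j) (a : K) :
    tv h.symm (-a) = (tv h 1 * tv h.symm (-1) * tv h 1) * tv h a * (tv h 1 * tv h.symm (-1) * tv h 1)⁻¹ := by
  rw [eq_mul_inv_iff_mul_eq]
  apply Units.ext
  have := ring_id (single i j (1 : K)) (single j i (1 : K)) a
    (single_mul_single_of_ne _ _ _ _ h.symm _) (single_mul_single_of_ne _ _ _ _ h _)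
    (by simp [single_mul_single_same]) (by simp [single_mul_single_same])
  simp only [Units.val_mul, tv, Matrix.transvection]
  have e1 : single j i (-1 : K) = -single j i (1 : K) := by rw [single_neg]
  have e2 : single j i (-a) = -(a • single j i (1 : K)) := by rw [smul_single, single_neg]; simp
  have e3 : single i j a = a • single i j (1 : K) := by rw [smul_single]; simp
  rw [e1, e2, e3, ← sub_eq_add_neg, ← sub_eq_add_neg, this]

end aux

/-- For every `n ≥ 2` there is an irreducible elementary net of order `n` of ℤ-submodules of the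
algebraic closure of ℚ that is not closed. -/
theorem result (n : ℕ) (hn : 2 ≤ n) :
    ∃ σ : Fin n → Fin n → Submodule ℤ (AlgebraicClosure ℚ),
      (∀ i r j : Fin n, i ≠ r → r ≠ j → i ≠ j → ∀ a ∈ σ i r, ∀ b ∈ σ r j, a * b ∈ σ i j) ∧
      (∀ i j : Fin n, i ≠ j → σ i j ≠ ⊥) ∧
      ∃ (i j : Fin n) (a : AlgebraicClosure ℚ), i ≠ j ∧ a ∉ σ i j ∧
        ∃ g ∈ netGroup σ, (g : Matrix (Fin n) (Fin n) (AlgebraicClosure ℚ)) =
          Matrix.transvection i j a := by
  obtain ⟨θ, hθ⟩ : ∃ θ : AlgebraicClosure ℚ, θ * θ = -1 := by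
    obtain ⟨z, hz⟩ := IsAlgClosed.exists_eq_mul_self (-1 : AlgebraicClosure ℚ)
    exact ⟨z, hz.symm⟩
  let p : Fin n := ⟨0, by omega⟩
  let q : Fin n := ⟨1, by omega⟩
  have hpq : p ≠ q := by simp [p, q]
  let σ : Fin n → Fin n → Submodule ℤ (AlgebraicClosure ℚ) := fun i j =>
    if i = p ∧ j = q then lat θ 1 1 else if i = q ∧ j = p then lat θ 1 2 else lat θ 2 2
  have hO : ∀ i j, ∀ x ∈ σ i j, ∃ a b : ℤ, x = a + b * θ := by
    intro i j x hx
    simp only [σ] at hx
    split_ifs at hx <;> obtain ⟨a, b, rfl⟩ := hx <;> exact ⟨_, _, rfl⟩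
  have h2 : ∀ i j, ∀ a b : ℤ, ((2 * a : ℤ) : AlgebraicClosure ℚ) + (2 * b : ℤ) * θ ∈ σ i j := by
    intro i j a b
    simp only [σ]
    split_ifs
    · exact ⟨2 * a, 2 * b, by simp⟩
    · exact ⟨2 * a, b, by simp⟩
    · exact ⟨a, b, rfl⟩
  have hpq' : σ p q = lat θ 1 1 := by simp [σ]
  have hqp' : σ q p = lat θ 1 2 := by simp [σ, hpq, hpq.symm]
  refine ⟨σ, ?_, ?_, q, p, -θ, hpq.symm, ?_, tv hpq.symm (-θ), ?_, rfl⟩
  · intro i r j h1 h3 h4 x hx y hy
    have : (σ i r = lat θ 2 2) ∨ (σ r j = lat θ 2 2) := by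
      simp only [σ]
      by_cases c1 : i = p ∧ r = q
      · right
        rw [if_neg (by rintro ⟨c, -⟩; exact hpq (c.symm.trans c1.2)),
          if_neg (by rintro ⟨-, c⟩; exact h4 (c1.1.trans c.symm))]
      · by_cases c2 : i = q ∧ r = p
        · right
          rw [if_neg (by rintro ⟨-, c⟩; exact h4 (c2.1.trans c.symm)),
            if_neg (by rintro ⟨c, -⟩; exact hpq (c2.2.symm.trans c))]
        · left
          rw [if_neg c1, if_neg c2]
    rcases this with h | h
    · rw [h] at hx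
      obtain ⟨a, b, rfl⟩ := hx
      obtain ⟨c, d, rfl⟩ := hO _ _ _ hy
      convert h2 i j (a * c - b * d) (a * d + b * c) using 1
      push_cast
      linear_combination (2 * b * d : AlgebraicClosure ℚ) * hθ
    · rw [h] at hy
      obtain ⟨a, b, rfl⟩ := hy
      obtain ⟨c, d, rfl⟩ := hO _ _ _ hx
      convert h2 i j (a * c - b * d) (a * d + b * c) using 1
      push_cast
      linear_combination (2 * b * d : AlgebraicClosure ℚ) * hθ
  · intro i j _ h
    have := h2 i j 1 0
    rw [h, Submodule.mem_bot] at this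
    simp at this
  · rw [hqp']
    rintro ⟨a, b, h⟩
    have h1 : ((a ^ 2 + (2 * b + 1) ^ 2 : ℤ) : AlgebraicClosure ℚ) = 0 := by
      push_cast at h ⊢
      linear_combination (-(a : AlgebraicClosure ℚ) + (2 * b + 1) * θ) * h + (2 * b + 1) ^ 2 * hθ
    have h3 : a ^ 2 + (2 * b + 1) ^ 2 = 0 := by exact_mod_cast h1
    have h4 : 2 * b + 1 = 0 := by nlinarith [sq_nonneg a, sq_nonneg (2 * b + 1)]
    omega
  · have m1 : ∀ a ∈ σ p q, tv hpq a ∈ netGroup σ := fun a ha =>
      Subgroup.subset_closure ⟨p, q, hpq, a, ha, rfl⟩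
    have m2 : tv hpq.symm (-1) ∈ netGroup σ :=
      Subgroup.subset_closure ⟨q, p, hpq.symm, -1, by rw [hqp']; exact ⟨-1, 0, by simp⟩, rfl⟩
    have m3 := m1 1 (by rw [hpq']; exact ⟨1, 0, by simp⟩)
    have m4 := m1 θ (by rw [hpq']; exact ⟨0, 1, by simp⟩)
    rw [conj hpq θ]
    have m5 := mul_mem (mul_mem m3 m2) m3
    exact mul_mem (mul_mem m5 m4) (inv_mem m5)

end Pool.Agent.Results.MP_9bf48e_al.NotClosed
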